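import Pool.Agent.Helper60.PlzA.Goals

set_option autoImplicit false

namespace Pool.Agent.Helper79.PlzA

open Finset Pool.Agent.Helper60.PlzA

open scoped Classical

theorem kst_core (l : ℝ) (k : ℕ) (hl : 0 < l) : ∃ N₀ : ℕ, ∀ (V : Type) (_ : Fintype V)
    (N : Finset V) (B : Finset (V × V)), N₀ ≤ N.card → (∀ p ∈ B, p.1 ∈ N ∧ p.2 ∈ N) →
    l * (N.card : ℝ) ^ 2 ≤ B.card →
    ∃ Z Z' : Finset V, Z ⊆ N ∧ Z' ⊆ N ∧ Z.card = k + 1 ∧ Z'.card = k + 1 ∧
      ∀ z ∈ Z, ∀ w ∈ Z', (z, w) ∈ B := by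
  obtain ⟨R, hR⟩ : ∃ R : ℕ, R = k + 1 := ⟨_, rfl⟩
  obtain ⟨N1, hN1⟩ := exists_nat_gt (2 * (R : ℝ) / l)
  obtain ⟨N2, hN2⟩ := exists_nat_gt ((R : ℝ) / (l / 2) ^ R)
  refine ⟨N1 + N2 + 1, fun V _ N B hN hB hlB => ?_⟩
  rw [← hR]
  by_contra hcon
  obtain ⟨n, hn⟩ : ∃ n : ℕ, n = N.card := ⟨_, rfl⟩
  rw [← hn] at hN hlB
  have hn0 : (0 : ℝ) < n := by
    have : 0 < n := by omega
    exact_mod_cast this
  have hnN1 : (N1 : ℝ) ≤ n := by
    have : N1 ≤ n := by omega
    exact_mod_cast this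
  have hnN2 : (N2 : ℝ) ≤ n := by
    have : N2 ≤ n := by omega
    exact_mod_cast this
  have hB1 : B = (N ×ˢ N).filter fun p => p ∈ B := by
    ext p
    simp only [mem_filter, mem_product]
    exact ⟨fun h => ⟨hB p h, h⟩, fun h => h.2⟩
  have hsum : B.card = ∑ z ∈ N, (N.filter fun w => (z, w) ∈ B).card := by
    rw [hB1, card_filter, sum_product]
    apply sum_congr rfl
    intro z _
    rw [card_filter]
    apply sum_congr rfl
    intro w hw
    by_cases h : (z, w) ∈ B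
    · have h' : (z, w) ∈ (N ×ˢ N).filter fun p => p ∈ B := by rw [← hB1]; exact h
      rw [if_pos h, if_pos h']
    · have h' : (z, w) ∉ (N ×ˢ N).filter fun p => p ∈ B := by rw [← hB1]; exact h
      rw [if_neg h, if_neg h']
  have hfew : ∀ Z' ∈ powersetCard R N,
      (N.filter fun z => Z' ⊆ N.filter fun w => (z, w) ∈ B).card ≤ R := by
    intro Z' hZ'
    rw [mem_powersetCard] at hZ'
    by_contra hlt
    push Not at hlt
    obtain ⟨Z, hZ1, hZ2⟩ := exists_subset_card_eq hlt.le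
    apply hcon
    refine ⟨Z, Z', fun z hz => (mem_filter.mp (hZ1 hz)).1, hZ'.1, hZ2, hZ'.2, ?_⟩
    intro z hz w hw
    exact (mem_filter.mp ((mem_filter.mp (hZ1 hz)).2 hw)).2
  have hps : ∀ z, powersetCard R (N.filter fun w => (z, w) ∈ B) =
      (powersetCard R N).filter fun Z' => Z' ⊆ N.filter fun w => (z, w) ∈ B := by
    intro z
    ext Z'
    simp only [mem_powersetCard, mem_filter]
    constructor
    · intro h
      exact ⟨⟨h.1.trans (filter_subset _ _), h.2⟩, h.1⟩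
    · intro h
      exact ⟨h.2, h.1.2⟩
  have hcount : ∑ z ∈ N, (N.filter fun w => (z, w) ∈ B).card.choose R ≤ n.choose R * R := by
    calc ∑ z ∈ N, (N.filter fun w => (z, w) ∈ B).card.choose R
        = ∑ z ∈ N, ∑ Z' ∈ powersetCard R N,
            if Z' ⊆ N.filter fun w => (z, w) ∈ B then 1 else 0 := by
          apply sum_congr rfl
          intro z _
          rw [← card_powersetCard, hps, card_filter]
      _ = ∑ Z' ∈ powersetCard R N, (N.filter fun z => Z' ⊆ N.filter fun w => (z, w) ∈ B).card := by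
          rw [sum_comm]
          apply sum_congr rfl
          intro Z' _
          rw [card_filter]
      _ ≤ ∑ Z' ∈ powersetCard R N, R := sum_le_sum hfew
      _ = n.choose R * R := by rw [sum_const, card_powersetCard, smul_eq_mul, hn]
  have hdesc : ∑ z ∈ N, (N.filter fun w => (z, w) ∈ B).card.descFactorial R ≤ n ^ R * R := by
    calc ∑ z ∈ N, (N.filter fun w => (z, w) ∈ B).card.descFactorial R
        = R.factorial * ∑ z ∈ N, (N.filter fun w => (z, w) ∈ B).card.choose R := by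
          rw [mul_sum]
          apply sum_congr rfl
          intro z _
          rw [Nat.descFactorial_eq_factorial_mul_choose]
      _ ≤ R.factorial * (n.choose R * R) := Nat.mul_le_mul_left _ hcount
      _ = n.descFactorial R * R := by
          rw [Nat.descFactorial_eq_factorial_mul_choose, mul_assoc]
      _ ≤ n ^ R * R := Nat.mul_le_mul_right _ (Nat.descFactorial_le_pow n R)
  have hpow : ∑ z ∈ N, (((N.filter fun w => (z, w) ∈ B).card - R : ℕ) : ℝ) ^ (k + 1) ≤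
      (n : ℝ) ^ R * R := by
    have h1 : ∑ z ∈ N, ((N.filter fun w => (z, w) ∈ B).card - R) ^ R ≤ n ^ R * R := by
      refine (sum_le_sum fun z _ => ?_).trans hdesc
      refine le_trans ?_ (Nat.pow_sub_le_descFactorial _ R)
      exact Nat.pow_le_pow_left (by omega) R
    rw [← hR]
    exact_mod_cast h1
  have hlow : l / 2 * (n : ℝ) ^ 2 ≤
      ∑ z ∈ N, (((N.filter fun w => (z, w) ∈ B).card - R : ℕ) : ℝ) := by
    have h1 : ∀ z ∈ N, ((N.filter fun w => (z, w) ∈ B).card : ℝ) - R ≤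
        (((N.filter fun w => (z, w) ∈ B).card - R : ℕ) : ℝ) := by
      intro z _
      have : (N.filter fun w => (z, w) ∈ B).card ≤
        ((N.filter fun w => (z, w) ∈ B).card - R) + R := by omega
      have h2 : ((N.filter fun w => (z, w) ∈ B).card : ℝ) ≤
        (((N.filter fun w => (z, w) ∈ B).card - R : ℕ) : ℝ) + R := by exact_mod_cast this
      linarith
    refine le_trans ?_ (sum_le_sum h1)
    rw [sum_sub_distrib, sum_const, ← hn, nsmul_eq_mul]
    have h3 : (B.card : ℝ) = ∑ z ∈ N, ((N.filter fun w => (z, w) ∈ B).card : ℝ) := by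
      rw [hsum]; push_cast; rfl
    rw [← h3]
    have h4 : 2 * (R : ℝ) < l * n := by
      rw [div_lt_iff₀ hl] at hN1
      nlinarith
    nlinarith
  have hJ := pow_sum_div_card_le_sum_pow (s := N)
    (f := fun z => (((N.filter fun w => (z, w) ∈ B).card - R : ℕ) : ℝ))
    (fun z _ => Nat.cast_nonneg _) k
  rw [← hn] at hJ
  have hJ2 := hJ.trans hpow
  rw [div_le_iff₀ (pow_pos hn0 k)] at hJ2
  have hJ3 : (l / 2 * (n : ℝ) ^ 2) ^ (k + 1) ≤ (n : ℝ) ^ R * R * (n : ℝ) ^ k :=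
    (pow_le_pow_left₀ (by positivity) hlow (k + 1)).trans hJ2
  rw [hR] at hJ3
  have hJ4 : (l / 2) ^ (k + 1) * n * ((n : ℝ) ^ (k + 1) * (n : ℝ) ^ k) ≤
      ((k + 1 : ℕ) : ℝ) * ((n : ℝ) ^ (k + 1) * (n : ℝ) ^ k) := by
    calc (l / 2) ^ (k + 1) * n * ((n : ℝ) ^ (k + 1) * (n : ℝ) ^ k)
        = (l / 2 * (n : ℝ) ^ 2) ^ (k + 1) := by rw [mul_pow]; ring
      _ ≤ _ := hJ3
      _ = _ := by ring
  have hJ5 : (l / 2) ^ (k + 1) * n ≤ ((k + 1 : ℕ) : ℝ) :=
    le_of_mul_le_mul_right hJ4 (by positivity)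
  rw [div_lt_iff₀ (by positivity), hR] at hN2
  have h6 : (0 : ℝ) < (l / 2) ^ (k + 1) := by positivity
  nlinarith

theorem kst : S_KST := by
  intro l R hl
  rcases Nat.eq_zero_or_pos R with hR | hR
  · subst hR
    exact ⟨0, fun V _ N B _ _ _ => ⟨∅, ∅, empty_subset _, empty_subset _, rfl, rfl,
      fun z hz => absurd hz (notMem_empty z)⟩⟩
  · obtain ⟨k, rfl⟩ : ∃ k, R = k + 1 := ⟨R - 1, by omega⟩
    exact kst_core l k hl

end Pool.Agent.Helper79.PlzA
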